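import Pool.Agent.H418.KS.Base
import Pool.Agent.H418.KS.Conv

/-!
# MO functions with `S_f(x) = o(x^(-1/2))` which are completely multiplicative, or completely
# multiplicative away from a thin set of primes with prescribed local factors

There is a real valued, completely multiplicative MO function with `S_f(x) = O(x^(-1/2-c))`. The local
factors at the primes of a thin set, for example of any finite set, can be prescribed; the function is
completely multiplicative on the integers without prime factors in the thin set.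
-/

set_option autoImplicit false

namespace Pool.Agent.Results.MP_a187e6_nt.CompletelyMultiplicativeExamples

open Filter Topology Finset Asymptotics
open Pool.Agent.H418.KS
open Pool.Agent.X26.CM (repl repl_one repl_mul repl_in repl_out)
open Pool.Agent.Y973.MO (af af_apply af_mul)

/-- `f` (only its values at `n ≥ 1` matter) is an MO function: multiplicative, with
`∑ f(n)` convergent to `0`, and `∑_k f(p ^ k)` convergent to a nonzero value for every prime `p` -/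
structure IsMO (f : ℕ → ℂ) : Prop where
  one : f 1 = 1
  mul : ∀ m n : ℕ, 1 ≤ m → 1 ≤ n → Nat.Coprime m n → f (m * n) = f m * f n
  sum_zero : Tendsto (fun N : ℕ => ∑ n ∈ Icc 1 N, f n) atTop (𝓝 0)
  local_ne_zero : ∀ p : ℕ, p.Prime →
    ∃ L : ℂ, L ≠ 0 ∧ Tendsto (fun K : ℕ => ∑ k ∈ range K, f (p ^ k)) atTop (𝓝 L)

/-- the partial sum `S_f(x) = ∑_{n ≤ x} f(n)` -/
noncomputable def partialSum (f : ℕ → ℂ) (x : ℝ) : ℂ := ∑ n ∈ Icc 1 ⌊x⌋₊, f n

/-- `S_f(x) = O(x^(-1/2-c))` for some `c > 0`, and in particular `S_f(x) = o(x^(-1/2))` -/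
def Fast (f : ℕ → ℂ) : Prop :=
  (∃ c C : ℝ, 0 < c ∧ ∀ x : ℝ, 1 ≤ x → ‖partialSum f x‖ ≤ C * x ^ (-(1 / 2 : ℝ) - c)) ∧
    (partialSum f) =o[atTop] (fun x : ℝ => x ^ (-(1 / 2 : ℝ)))

/-- `f` is completely multiplicative on the integers without prime factors in `P` -/
def CompletelyAway (P : Set ℕ) (f : ℕ → ℂ) : Prop :=
  ∀ m n : ℕ, 1 ≤ m → 1 ≤ n → (∀ p ∈ P, ¬ p ∣ m) → (∀ p ∈ P, ¬ p ∣ n) → f (m * n) = f m * f n

lemma fast_of_nat (g : ℕ → ℂ) (c C : ℝ) (hc : 0 < c) (hC : 0 ≤ C)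
    (h : ∀ N : ℕ, 1 ≤ N → ‖∑ n ∈ Icc 1 N, g n‖ ≤ C * (N : ℝ) ^ (-(1 / 2 + c))) : Fast g := by
  have key : ∀ x : ℝ, 1 ≤ x → ‖partialSum g x‖ ≤ C * 2 ^ (1 / 2 + c) * x ^ (-(1 / 2 : ℝ) - c) := by
    intro x hx
    have hfl : 1 ≤ ⌊x⌋₊ := by rwa [Nat.one_le_floor_iff]
    have h3 := h ⌊x⌋₊ hfl
    have h4 : (1 : ℝ) ≤ ⌊x⌋₊ := by exact_mod_cast hfl
    have h5 : x / 2 ≤ ⌊x⌋₊ := by
      have := Nat.lt_floor_add_one x
      linarith
    have h6 : (⌊x⌋₊ : ℝ) ^ (-(1 / 2 + c)) ≤ (x / 2) ^ (-(1 / 2 + c)) :=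
      Real.rpow_le_rpow_of_nonpos (by linarith) h5 (by linarith)
    have h7 : (x / 2) ^ (-(1 / 2 + c)) = x ^ (-(1 / 2 : ℝ) - c) * 2 ^ (1 / 2 + c) := by
      rw [Real.div_rpow (by linarith) (by norm_num), div_eq_mul_inv, ← Real.rpow_neg (by norm_num),
        neg_neg, neg_add']
    unfold partialSum
    calc ‖∑ n ∈ Icc 1 ⌊x⌋₊, g n‖ ≤ C * (⌊x⌋₊ : ℝ) ^ (-(1 / 2 + c)) := h3
      _ ≤ C * (x ^ (-(1 / 2 : ℝ) - c) * 2 ^ (1 / 2 + c)) := by
          rw [← h7]
          exact mul_le_mul_of_nonneg_left h6 hC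
      _ = C * 2 ^ (1 / 2 + c) * x ^ (-(1 / 2 : ℝ) - c) := by ring
  refine ⟨⟨c, C * 2 ^ (1 / 2 + c), hc, key⟩, ?_⟩
  have e1 : (partialSum g) =O[atTop] (fun x : ℝ => x ^ (-(1 / 2 : ℝ) - c)) := by
    refine IsBigO.of_bound (C * 2 ^ (1 / 2 + c)) ?_
    filter_upwards [eventually_ge_atTop (1 : ℝ)] with x hx
    rw [Real.norm_of_nonneg (by positivity)]
    exact key x hx
  refine e1.trans_isLittleO ?_
  rw [isLittleO_iff_tendsto']
  · have h5 : Tendsto (fun x : ℝ => x ^ (-c)) atTop (𝓝 0) := tendsto_rpow_neg_atTop hc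
    refine h5.congr' ?_
    filter_upwards [eventually_gt_atTop (0 : ℝ)] with x hx
    rw [← Real.rpow_sub hx]
    congr 1
    ring
  · filter_upwards [eventually_gt_atTop (0 : ℝ)] with x hx h0
    exact absurd h0 (by positivity)

lemma sum_zero_of_rpow (g : ℕ → ℂ) (c C : ℝ) (hc : 0 < c)
    (h : ∀ N : ℕ, 1 ≤ N → ‖∑ n ∈ Icc 1 N, g n‖ ≤ C * (N : ℝ) ^ (-(1 / 2 + c))) :
    Tendsto (fun N : ℕ => ∑ n ∈ Icc 1 N, g n) atTop (𝓝 0) := by
  rw [tendsto_zero_iff_norm_tendsto_zero]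
  have h3 : Tendsto (fun x : ℝ => x ^ (-(1 / 2 + c))) atTop (𝓝 0) :=
    tendsto_rpow_neg_atTop (by positivity)
  have h4 := (h3.comp (tendsto_natCast_atTop_atTop (R := ℝ))).const_mul C
  rw [mul_zero] at h4
  refine squeeze_zero' (Eventually.of_forall fun N => norm_nonneg _) ?_ h4
  filter_upwards [eventually_ge_atTop 1] with N hN
  exact h N hN

lemma pow_of_mul (f : ℕ → ℂ) (h1 : f 1 = 1)
    (hf : ∀ m n : ℕ, 1 ≤ m → 1 ≤ n → f (m * n) = f m * f n) (p : ℕ) (hp : p.Prime) (k : ℕ) :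
    f (p ^ k) = f p ^ k := by
  induction k with
  | zero => rw [pow_zero, pow_zero, h1]
  | succ k ih => rw [pow_succ, hf _ _ (Nat.one_le_pow _ _ hp.pos) hp.one_lt.le, ih, pow_succ]

/-- a geometric local factor -/
lemma geom_local (f : ℕ → ℂ) (p : ℕ) (z : ℂ) (hz : ‖z‖ < 1) (hf : ∀ k, f (p ^ k) = z ^ k) :
    ∃ L : ℂ, L ≠ 0 ∧ Tendsto (fun K : ℕ => ∑ k ∈ range K, f (p ^ k)) atTop (𝓝 L) := by
  refine ⟨(1 - z)⁻¹, ?_, ?_⟩
  · apply inv_ne_zero
    intro h
    have : z = 1 := (sub_eq_zero.1 h).symm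
    rw [this, norm_one] at hz
    exact lt_irrefl _ hz
  · refine (hasSum_geometric_of_norm_lt_one hz).tendsto_sum_nat.congr fun K => ?_
    exact sum_congr rfl fun k _ => (hf k).symm

lemma real_of_mul (f : ℕ → ℂ) (h1 : f 1 = 1)
    (hf : ∀ m n : ℕ, 1 ≤ m → 1 ≤ n → f (m * n) = f m * f n)
    (hp : ∀ p : ℕ, p.Prime → (starRingEnd ℂ) (f p) = f p) (n : ℕ) (hn : 1 ≤ n) :
    (starRingEnd ℂ) (f n) = f n := by
  induction n using Nat.strong_induction_on with
  | _ n ih =>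
    rcases Nat.lt_or_ge n 2 with h | h
    · have : n = 1 := by omega
      rw [this, h1, map_one]
    · obtain ⟨p, hpp, m, rfl⟩ := Nat.exists_prime_and_dvd (show n ≠ 1 by omega)
      have hm : 1 ≤ m := by
        rcases Nat.eq_zero_or_pos m with h0 | h0
        · subst h0; simp at hn
        · exact h0
      have hlt : m < p * m := by
        have := hpp.one_lt
        nlinarith
      rw [hf p m hpp.one_lt.le hm, map_mul, hp p hpp, ih m hlt hm]

/-- The answer to Q1 is negative, even for completely multiplicative functions.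

(1) There is a real valued, completely multiplicative MO function `f` with
`S_f(x) = O(x^(-1/2-c))` for some `c > 0`.

(2) There is an absolute constant `c₀ > 0` with the following property. Let `P` be a set of primes with
`∑_{p ∈ P} p^(-c₀) < ∞` (for example any finite set), and let `a p k` (`p ∈ P`, `k ≥ 0`) be complex
numbers with `a p 0 = 1`, with `∑_k a p k ≠ 0` for every `p ∈ P`, and with
`∑_{p ∈ P} ∑_{k ≥ 1} |a p k| p^((1/2+η) k) < ∞` for some `η > 0`. Then there is an MO function `f`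
with `f(p^k) = a p k` for all `p ∈ P` and all `k`, which is completely multiplicative on the integers
without prime factors in `P`, and `S_f(x) = O(x^(-1/2-c))` for some `c > 0`. It is real valued if the
numbers `a p k` are real. -/
theorem result :
    (∃ f : ℕ → ℝ, (∀ m n : ℕ, 1 ≤ m → 1 ≤ n → f (m * n) = f m * f n) ∧
      IsMO (fun n => (f n : ℂ)) ∧ Fast (fun n => (f n : ℂ))) ∧
    ∃ c₀ : ℝ, 0 < c₀ ∧ ∀ (P : Set ℕ) (a : ℕ → ℕ → ℂ), (∀ p ∈ P, p.Prime) →
      (Summable fun p : ℕ => P.indicator (fun p => (p : ℝ) ^ (-c₀)) p) →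
      (∀ p ∈ P, a p 0 = 1 ∧ ∑' k : ℕ, a p k ≠ 0) →
      (∃ η : ℝ, 0 < η ∧ Summable fun x : ℕ × ℕ =>
        P.indicator (fun p => ‖a p (x.2 + 1)‖ * (p : ℝ) ^ ((1 / 2 + η) * ((x.2 + 1 : ℕ) : ℝ))) x.1) →
      ∃ f : ℕ → ℂ, IsMO f ∧ Fast f ∧ (∀ p ∈ P, ∀ k : ℕ, f (p ^ k) = a p k) ∧
        CompletelyAway P f ∧ ((∀ p ∈ P, ∀ k : ℕ, (a p k).im = 0) → ∀ n : ℕ, (f n).im = 0) := by
  obtain ⟨f₀, c, C, hc, hC, hf1, hfm, hfb⟩ := exists_f0
  set F : ℕ → ℂ := fun n => ((f₀ n : ℝ) : ℂ) with hF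
  have hF1 : F 1 = 1 := by simp only [hF]; rw [hf1, Complex.ofReal_one]
  have hFm : ∀ m n : ℕ, 1 ≤ m → 1 ≤ n → F (m * n) = F m * F n := by
    intro m n hm hn
    simp only [hF]
    rw [hfm m n hm hn, Complex.ofReal_mul]
  have hFb : ∀ N : ℕ, 1 ≤ N → ‖∑ n ∈ Icc 1 N, F n‖ ≤ C * (N : ℝ) ^ (-(1 / 2 + c)) := by
    intro N hN
    have h2 : ∑ n ∈ Icc 1 N, F n = ((∑ n ∈ Icc 1 N, f₀ n : ℝ) : ℂ) := by
      simp only [hF]
      push_cast
      rfl
    rw [h2, Complex.norm_real, Real.norm_eq_abs, neg_add']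
    exact hfb N hN
  have hFp : ∀ p : ℕ, p.Prime → ‖F p‖ < 1 := fun p hp =>
    (prime_bound F hF1 hFm (1 / 2 + c) C (by positivity) hFb p hp).trans_lt
      (Real.rpow_lt_one_of_one_lt_of_neg (by exact_mod_cast hp.one_lt) (by linarith))
  refine ⟨⟨f₀, hfm, ?_, fast_of_nat F c C hc hC.le hFb⟩, c / 2, by positivity, ?_⟩
  · exact ⟨hF1, fun m n hm hn _ => hFm m n hm hn, sum_zero_of_rpow F c C hc hFb,
      fun p hp => geom_local F p (F p) (hFp p hp) (pow_of_mul F hF1 hFm p hp)⟩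
  rintro P a hPp hthin ha ⟨η, hη, hsum⟩
  set f₁ : ℕ → ℂ := repl P (fun _ => 0) F with hf₁
  have h11 : f₁ 1 = 1 := repl_one _ _ _
  have h1m : ∀ m n : ℕ, 1 ≤ m → 1 ≤ n → f₁ (m * n) = f₁ m * f₁ n :=
    fun m n _ _ => repl_mul _ _ _ m n
  have h1in : ∀ p ∈ P, f₁ p = 0 := fun p hp => repl_in P _ F p (hPp p hp) hp
  have h1out : ∀ p : ℕ, p.Prime → p ∉ P → f₁ p = F p := fun p hp h => repl_out P _ F p hp h
  obtain ⟨C', hC', hb'⟩ := replace F hF1 hFm (1 / 2 + c) C (by positivity) hFb (c / 2)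
    (by positivity) (by linarith) P (fun _ => 0) hPp (fun p _ => by simp) hthin (by
      refine (summable_zero).congr fun p => ?_
      simp only [norm_zero, zero_mul, Set.indicator_zero])
  set δ : ℝ := min (c / 2) η with hδ
  have hδ0 : 0 < δ := lt_min (by positivity) hη
  have hb1 : ∀ N : ℕ, 1 ≤ N → ‖∑ n ∈ Icc 1 N, f₁ n‖ ≤ C' * (N : ℝ) ^ (-(1 / 2 + δ)) := by
    intro N hN
    refine (hb' N hN).trans (mul_le_mul_of_nonneg_left ?_ hC')
    exact Real.rpow_le_rpow_of_exponent_le (by exact_mod_cast hN)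
      (by have := min_le_left (c / 2) η; linarith)
  have hs1 : Summable fun x : ℕ × ℕ =>
      P.indicator (fun p => ‖a p (x.2 + 1)‖ * (p : ℝ) ^ ((1 / 2 + δ) * ((x.2 + 1 : ℕ) : ℝ))) x.1 := by
    refine Summable.of_nonneg_of_le
      (fun x => Set.indicator_nonneg (fun p _ => by positivity) _) (fun x => ?_) hsum
    by_cases h : x.1 ∈ P
    · rw [Set.indicator_of_mem h, Set.indicator_of_mem h]
      have hp1 : (1 : ℝ) ≤ x.1 := by exact_mod_cast (hPp _ h).one_lt.le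
      refine mul_le_mul_of_nonneg_left (Real.rpow_le_rpow_of_exponent_le hp1 ?_) (norm_nonneg _)
      have := min_le_right (c / 2) η
      gcongr
    · rw [Set.indicator_of_notMem h, Set.indicator_of_notMem h]
  obtain ⟨C'', hC'', hb2⟩ := conv_bound (hP P a) (1 / 2 + δ) (by positivity)
    (hP_summable P a (1 / 2 + δ) hs1) f₁ C' hC' hb1
  have hmul : (hP P a * af f₁).IsMultiplicative :=
    (hP_mul P a).mul (af_mul f₁ h11 (fun m n hm hn _ => h1m m n hm hn))
  have hin : ∀ p ∈ P, ∀ k : ℕ, (hP P a * af f₁) (p ^ k) = a p k := fun p hp k =>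
    conv_pow_in P a f₁ h11 p (hPp p hp) hp (ha p hp).1 (fun k hk => by
      rw [pow_of_mul f₁ h11 h1m p (hPp p hp), h1in p hp, zero_pow (by omega)]) k
  have hout : ∀ p : ℕ, p.Prime → p ∉ P → ∀ k : ℕ, (hP P a * af f₁) (p ^ k) = F p ^ k := by
    intro p hp hpP k
    rw [conv_out P a f₁ (p ^ k) (Nat.one_le_pow _ _ hp.pos) (fun q hq hqp => hpP (by
      have := (Nat.prime_dvd_prime_iff_eq (hPp q hq) hp).1 ((hPp q hq).dvd_of_dvd_pow hqp)
      rwa [← this])), pow_of_mul f₁ h11 h1m p hp, h1out p hp hpP]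
  refine ⟨fun n => (hP P a * af f₁) n, ⟨hmul.1, fun m n _ _ hmn => hmul.map_mul_of_coprime hmn,
    sum_zero_of_rpow _ δ C'' hδ0 hb2, ?_⟩, fast_of_nat _ δ C'' hδ0 hC''.le hb2, hin, ?_, ?_⟩
  · intro p hp
    by_cases hpP : p ∈ P
    · have h3 := ((summable_prod_of_nonneg (fun x => by
        exact Set.indicator_nonneg (fun p _ => by positivity) _)).1 hsum).1 p
      have h4 : Summable fun k : ℕ => a p (k + 1) := by
        refine Summable.of_norm_bounded h3 fun k => ?_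
        show ‖a p (k + 1)‖ ≤ P.indicator _ p
        rw [Set.indicator_of_mem hpP]
        have h5 : (1 : ℝ) ≤ (p : ℝ) ^ ((1 / 2 + η) * ((k + 1 : ℕ) : ℝ)) :=
          Real.one_le_rpow (by exact_mod_cast hp.one_lt.le) (by positivity)
        have h6 := norm_nonneg (a p (k + 1))
        nlinarith
      have h5 : Summable (a p) := (summable_nat_add_iff 1).1 h4
      refine ⟨∑' k : ℕ, a p k, (ha p hpP).2, ?_⟩
      refine h5.hasSum.tendsto_sum_nat.congr fun K => ?_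
      exact sum_congr rfl fun k _ => (hin p hpP k).symm
    · exact geom_local _ p (F p) (hFp p hp) (hout p hp hpP)
  · intro m n hm hn hmP hnP
    show (hP P a * af f₁) (m * n) = (hP P a * af f₁) m * (hP P a * af f₁) n
    rw [conv_out P a f₁ m hm hmP, conv_out P a f₁ n hn hnP,
      conv_out P a f₁ (m * n) (Nat.mul_pos hm hn) (fun p hp hpd =>
        ((hPp p hp).dvd_mul.1 hpd).elim (hmP p hp) (hnP p hp)), h1m m n hm hn]
  · intro hreal n
    rw [← Complex.conj_eq_iff_im]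
    refine conv_real (hP P a) f₁ (hP_real P a fun p hp k => ?_) (fun n hn => ?_) n
    · exact Complex.conj_eq_iff_im.2 (hreal p hp k)
    · refine real_of_mul f₁ h11 h1m (fun p hp => ?_) n hn
      by_cases hpP : p ∈ P
      · rw [h1in p hpP, map_zero]
      · rw [h1out p hp hpP]
        exact Complex.conj_ofReal _

end Pool.Agent.Results.MP_a187e6_nt.CompletelyMultiplicativeExamples
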